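import Mathlib

set_option autoImplicit false

namespace Pool.Agent.Results.MP_4d22c1_co.SmallNontrivialTiling

open Set

/-- The closed box with lower corner `p` and (natural) side lengths `s`. -/
def box {d : ℕ} (p : Fin d → ℝ) (s : Fin d → ℕ) : Set (Fin d → ℝ) :=
  Icc p fun k => p k + s k

/-- A box with side lengths `a` fits inside a box with side lengths `b`, with sides parallel. -/
def Fits {d : ℕ} (a b : Fin d → ℕ) : Prop :=
  ∃ σ : Equiv.Perm (Fin d), ∀ k, a (σ k) ≤ b k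

/-- Neither of two boxes fits inside the other. -/
def Incomparable {d : ℕ} (a b : Fin d → ℕ) : Prop := ¬ Fits a b ∧ ¬ Fits b a

/-- The boxes `box (p i) (s i)`, `i : Fin m`, with positive integer side lengths, are an
incomparable tiling of the box `[0, x 0] × ... × [0, x (d-1)]`. -/
structure IncomparableTiling {d m : ℕ} (x : Fin d → ℕ) (p : Fin m → Fin d → ℝ)
    (s : Fin m → Fin d → ℕ) : Prop where
  two_le : 2 ≤ m
  pos : ∀ i k, 0 < s i k
  union : ⋃ i, box (p i) (s i) = box 0 x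
  disjoint : ∀ i j, i ≠ j → Disjoint (interior (box (p i) (s i))) (interior (box (p j) (s j)))
  incomparable : ∀ i j, i ≠ j → Incomparable (s i) (s j)

/-- The tiling is trivial: in some direction all tiles have the full extent. -/
def Trivial {d m : ℕ} (x : Fin d → ℕ) (s : Fin m → Fin d → ℕ) : Prop :=
  ∃ k, ∀ i, s i k = x k

/-- the sides of the tiled box -/
def X : Fin 4 → ℕ := ![3, 3, 7, 8]

/-- the lower corners of the tiles -/
def P : Fin 9 → Fin 4 → ℕ :=
  ![![0, 0, 0, 0], ![0, 0, 0, 5], ![0, 0, 5, 0], ![0, 2, 0, 0],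
    ![0, 2, 1, 0], ![0, 2, 1, 5], ![1, 0, 0, 0], ![1, 0, 1, 0], ![1, 0, 1, 5]]

/-- the sides of the tiles -/
def S : Fin 9 → Fin 4 → ℕ :=
  ![![1, 2, 5, 5], ![1, 2, 7, 3], ![3, 3, 2, 5], ![3, 1, 1, 8],
    ![3, 1, 4, 5], ![3, 1, 6, 3], ![2, 2, 1, 8], ![2, 2, 4, 5], ![2, 2, 6, 3]]

lemma cover : ∀ (a : Fin 3) (b : Fin 3) (c : Fin 7) (e : Fin 8), ∃ i : Fin 9,
    (P i 0 ≤ a.val ∧ a.val < P i 0 + S i 0) ∧ (P i 1 ≤ b.val ∧ b.val < P i 1 + S i 1) ∧
    (P i 2 ≤ c.val ∧ c.val < P i 2 + S i 2) ∧ (P i 3 ≤ e.val ∧ e.val < P i 3 + S i 3) := by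
  decide +kernel

lemma inside : ∀ i k, P i k + S i k ≤ X k := by decide +kernel

lemma apart : ∀ i j, i ≠ j → ∃ k, P i k + S i k ≤ P j k ∨ P j k + S j k ≤ P i k := by
  decide +kernel

lemma incomp : ∀ i j, i ≠ j → ¬ ∃ σ : Equiv.Perm (Fin 4), ∀ k, S i (σ k) ≤ S j k := by
  decide +kernel

lemma cell {y : ℝ} {N : ℕ} (hN : 0 < N) (h0 : 0 ≤ y) (h1 : y ≤ N) :
    ∃ a < N, (a : ℝ) ≤ y ∧ y ≤ a + 1 := by
  rcases lt_or_ge y N with h | h
  · exact ⟨⌊y⌋₊, (Nat.floor_lt h0).2 h, Nat.floor_le h0, (Nat.lt_floor_add_one y).le⟩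
  · refine ⟨N - 1, by omega, ?_, ?_⟩
    · have : ((N - 1 : ℕ) : ℝ) ≤ N := by exact_mod_cast Nat.sub_le N 1
      linarith
    · have : ((N - 1 : ℕ) : ℝ) + 1 = N := by
        rw [Nat.cast_sub (by omega)]; simp
      rw [this]; exact h1

lemma union_eq : ⋃ i, box (fun k => (P i k : ℝ)) (S i) = box 0 X := by
  ext y
  simp only [mem_iUnion, box, mem_Icc, Pi.le_def]
  constructor
  · rintro ⟨i, h1, h2⟩
    refine ⟨fun k => ?_, fun k => ?_⟩
    · have : (0 : ℝ) ≤ P i k := by positivity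
      exact this.trans (h1 k)
    · have h3 := h2 k
      have h4 : ((P i k + S i k : ℕ) : ℝ) ≤ X k := by exact_mod_cast inside i k
      push_cast at h4
      simp only [Pi.zero_apply, zero_add]
      linarith
  · rintro ⟨h1, h2⟩
    simp only [Pi.zero_apply, zero_add] at h1 h2
    obtain ⟨a, ha, ha1, ha2⟩ := cell (y := y 0) (N := 3) (by norm_num) (h1 0)
      (by simpa [X] using h2 0)
    obtain ⟨b, hb, hb1, hb2⟩ := cell (y := y 1) (N := 3) (by norm_num) (h1 1)
      (by simpa [X] using h2 1)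
    obtain ⟨c, hc, hc1, hc2⟩ := cell (y := y 2) (N := 7) (by norm_num) (h1 2)
      (by simpa [X] using h2 2)
    obtain ⟨e, he, he1, he2⟩ := cell (y := y 3) (N := 8) (by norm_num) (h1 3)
      (by simpa [X] using h2 3)
    obtain ⟨i, ⟨ia, ia'⟩, ⟨ib, ib'⟩, ⟨ic, ic'⟩, ⟨ie, ie'⟩⟩ := cover ⟨a, ha⟩ ⟨b, hb⟩ ⟨c, hc⟩ ⟨e, he⟩
    have up : ∀ {m n k : ℕ} {z : ℝ}, m < n + k → z ≤ m + 1 → z ≤ (n : ℝ) + k := by
      intro m n k z h1 h2
      have : ((m + 1 : ℕ) : ℝ) ≤ ((n + k : ℕ) : ℝ) := by exact_mod_cast h1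
      push_cast at this
      linarith
    have lo : ∀ {m n : ℕ} {z : ℝ}, n ≤ m → (m : ℝ) ≤ z → (n : ℝ) ≤ z := by
      intro m n z h1 h2
      have : (n : ℝ) ≤ m := by exact_mod_cast h1
      linarith
    refine ⟨i, fun k => ?_, fun k => ?_⟩
    · fin_cases k
      · exact lo ia ha1
      · exact lo ib hb1
      · exact lo ic hc1
      · exact lo ie he1
    · fin_cases k
      · exact up ia' ha2
      · exact up ib' hb2
      · exact up ic' hc2
      · exact up ie' he2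

lemma interior_box {d : ℕ} (p : Fin d → ℝ) (s : Fin d → ℕ) :
    interior (box p s) = {y | ∀ k, p k < y k ∧ y k < p k + s k} := by
  rw [box, ← pi_univ_Icc, interior_pi_set finite_univ]
  ext y
  simp [interior_Icc, Set.mem_pi]

/-- There is a non-trivial incomparable tiling of a 4-dimensional box: the `3 × 3 × 7 × 8` box,
of volume 504, has one by 9 boxes. -/
theorem result : ∃ (m : ℕ) (x : Fin 4 → ℕ) (p : Fin m → Fin 4 → ℝ) (s : Fin m → Fin 4 → ℕ),
    IncomparableTiling x p s ∧ ¬ Trivial x s ∧ x = ![3, 3, 7, 8] ∧ ∏ k, x k = 504 ∧ m = 9 := by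
  refine ⟨9, X, fun i k => (P i k : ℝ), S, ⟨by norm_num, by decide +kernel, union_eq, ?_, ?_⟩, ?_,
    rfl, by decide +kernel, rfl⟩
  · intro i j hij
    rw [interior_box, interior_box, Set.disjoint_left]
    intro y h1 h2
    obtain ⟨k, hk | hk⟩ := apart i j hij
    · have h3 : ((P i k + S i k : ℕ) : ℝ) ≤ P j k := by exact_mod_cast hk
      push_cast at h3
      have h4 := (h1 k).2
      have h5 := (h2 k).1
      linarith
    · have h3 : ((P j k + S j k : ℕ) : ℝ) ≤ P i k := by exact_mod_cast hk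
      push_cast at h3
      have h4 := (h2 k).2
      have h5 := (h1 k).1
      linarith
  · intro i j hij
    exact ⟨incomp i j hij, incomp j i hij.symm⟩
  · rw [Trivial]
    decide +kernel

end Pool.Agent.Results.MP_4d22c1_co.SmallNontrivialTiling
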